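import Pool.Agent.PFS.Stmts

/-!
# PFS squad (MP_e54c4c_gt), row STR
-/

set_option autoImplicit false

open Matrix Filter Topology

namespace Pool.Agent.PFS.H69

theorem hull_sum {n : ℕ} {C : Set (V n)} {Γ : Subgroup (GL (Fin n) ℝ)} (h : CC C Γ) {ι : Type}
    {s : Finset ι} (hs : s.Nonempty) {f : ι → V n} (hf : ∀ i ∈ s, f i ∈ Hull C Γ) :
    ∑ i ∈ s, f i ∈ Hull C Γ :=
  Finset.sum_induction_nonempty f (fun x => x ∈ Hull C Γ)
    (fun a b ha hb => h.hul.add a ha b hb) hs hf

/-- a sum over a proper subset of the vertices is not in `C` -/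
theorem not_mem_of_ne {n : ℕ} {C : Set (V n)} {ι : Type} [Fintype ι]
    {w : ι → V n} (hw : PES C w) {I : Finset ι} (hI : I ≠ Finset.univ) : ∑ i ∈ I, w i ∉ C := by
  classical
  obtain ⟨j, hj⟩ : ∃ j, j ∉ I := by
    by_contra hcon
    push Not at hcon
    exact hI (Finset.eq_univ_of_forall hcon)
  have h1 := hw.bd (fun i => if i ∈ I then 1 else 0) (fun i => by split_ifs <;> norm_num)
    ⟨j, by simp [hj]⟩
  have h2 : ∑ i, (if i ∈ I then (1 : ℝ) else 0) • w i = ∑ i ∈ I, w i := by
    simp only [ite_smul, one_smul, zero_smul]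
    rw [Finset.sum_ite_mem, Finset.univ_inter]
  rwa [h2] at h1

/-- row STR -/
theorem str (clo : CloStmt) (lin : LinStmt) (fzm : FzmStmt) : StrStmt := by
  classical
  intro n C Γ h hsf K hK w hw I hI β y hy hβ
  have P : PCone C := h.toPCone
  have Hf := h.hul
  have hind := lin n C P (Fin K) w hw.1
  have hwcl : ∀ i, w i ∈ closure C := fun i => hw.1.cl i
  have hxcl : ∑ i ∈ I, w i ∈ closure C := P.cl_sum fun i _ => hwcl i
  by_cases hcase : I.Nonempty ∧ 0 < β
  swap
  · have hy0 : y = 0 := by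
      apply P.salient y hy
      rcases not_and_or.1 hcase with h1 | h1
      · rw [Finset.not_nonempty_iff_eq_empty] at h1
        rw [h1, Finset.sum_empty, smul_zero, zero_sub] at hβ
        exact hβ
      · have h2 := P.cl_add hβ (P.cl_smul hxcl (t := -β) (by linarith))
        have h3 : β • ∑ i ∈ I, w i - y + -β • ∑ i ∈ I, w i = -y := by
          rw [neg_smul]; abel
        rwa [h3] at h2
    exact ⟨fun _ => 0, fun _ => le_rfl, fun _ _ => rfl, by rw [hy0]; simp⟩
  obtain ⟨hIne, hβ0⟩ := hcase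
  obtain ⟨x, hx⟩ : ∃ x, x = ∑ i ∈ I, w i := ⟨_, rfl⟩
  rw [← hx] at hβ hxcl
  have hxH : x ∈ Hull C Γ := by
    rw [hx]
    exact hull_sum h hIne fun i _ => Hf.lamHull _ (hw.2 i)
  have hxC : x ∉ C := by
    rw [hx]
    exact not_mem_of_ne hw.1 hI
  have hx0 : x ≠ 0 := by
    intro h0
    rw [linearIndependent_iff'] at hind
    obtain ⟨i, hi⟩ := hIne
    have h1 := hind I (fun _ => 1) (by simpa [hx] using h0) i hi
    exact one_ne_zero h1
  have hxL : x ∈ LamC C Γ :=
    clo n C Γ h (fun _ => x) x (fun _ => hxH) tendsto_const_nhds hxC hx0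
  obtain ⟨r, y', hy', hface⟩ := hsf x hxL
  -- the dimension of the face
  have hcard : I.card + (Iᶜ).card = K := by
    rw [Finset.card_add_card_compl, Fintype.card_fin]
  have hIc : 0 < (Iᶜ).card := by
    rw [Finset.card_pos]
    by_contra hcon
    rw [Finset.not_nonempty_iff_eq_empty, Finset.compl_eq_empty_iff] at hcon
    exact hI hcon
  let e : Fin (Iᶜ).card ≃ {i // i ∈ Iᶜ} := (Iᶜ).equivFin.symm
  have hsb : ∑ j, w (e j : Fin K) = ∑ i ∈ Iᶜ, w i := by
    rw [e.sum_comp (fun i : {i // i ∈ Iᶜ} => w (i : Fin K))]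
    exact Finset.sum_coe_sort (Iᶜ) w
  have hall : x + ∑ j, w (e j : Fin K) = ∑ i, w i := by
    rw [hsb, hx]
    exact Finset.sum_add_sum_compl I w
  have hr : r ≤ I.card := by
    obtain ⟨w'', hw''⟩ := fzm n C Γ h r (Iᶜ).card x y' (fun j => w (e j : Fin K)) hxL hy' hface hIc
      (fun j => Hf.lamHull _ (hw.2 _)) (by
        rw [hall]
        exact hw.1.sum_mem)
      (fun j => by
        have h1 : x + ∑ l ∈ Finset.univ.erase j, w (e l : Fin K) =
            ∑ i ∈ Finset.univ.erase (e j : Fin K), w i := by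
          rw [Finset.sum_erase_eq_sub (Finset.mem_univ j),
            Finset.sum_erase_eq_sub (Finset.mem_univ (e j : Fin K)), ← hall]
          abel
        rw [h1]
        refine not_mem_of_ne hw.1 ?_
        intro h2
        have h3 := Finset.mem_univ (e j : Fin K)
        rw [← h2] at h3
        exact Finset.notMem_erase _ _ h3)
    have := hK _ w'' hw''
    omega
  -- spans
  have hfs : ∀ z ∈ Face C x, z ∈ Submodule.span ℝ (Set.range y') := by
    intro z hz
    rw [hface] at hz
    obtain ⟨c, _, rfl⟩ := hz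
    exact Submodule.sum_mem _ fun i _ =>
      Submodule.smul_mem _ _ (Submodule.subset_span (Set.mem_range_self i))
  have hxF : x ∈ Face C x := ⟨1, one_pos, by rw [one_smul, sub_self]; exact P.zero_cl,
    by rw [one_smul, sub_self]; exact P.zero_cl⟩
  have hwF : ∀ i ∈ I, x + w i ∈ Face C x := by
    intro i hi
    have h1 : x - w i ∈ closure C := by
      rw [hx, ← Finset.sum_erase_eq_sub hi]
      exact P.cl_sum fun j _ => hwcl j
    refine ⟨1 / 2, by norm_num, ?_, ?_⟩
    · have h2 : x - (1 / 2 : ℝ) • (x + w i) = (1 / 2 : ℝ) • (x - w i) := by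
        module
      rw [h2]
      exact P.cl_smul h1 (by norm_num)
    · have h2 : x + w i - (1 / 2 : ℝ) • x = (1 / 2 : ℝ) • x + w i := by
        module
      rw [h2]
      exact P.cl_add (P.cl_smul hxcl (by norm_num)) (hwcl i)
  have hws : ∀ i ∈ I, w i ∈ Submodule.span ℝ (Set.range y') := by
    intro i hi
    have h1 := Submodule.sub_mem _ (hfs _ (hwF i hi)) (hfs _ hxF)
    rwa [add_sub_cancel_left] at h1
  have hindI : LinearIndependent ℝ (fun i : {i // i ∈ I} => w (i : Fin K)) :=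
    hind.comp _ Subtype.val_injective
  have hspan : Submodule.span ℝ (Set.range (fun i : {i // i ∈ I} => w (i : Fin K))) =
      Submodule.span ℝ (Set.range y') := by
    refine Submodule.eq_of_le_of_finrank_le ?_ ?_
    · rw [Submodule.span_le]
      rintro _ ⟨i, rfl⟩
      exact hws i i.2
    · rw [finrank_span_eq_card hy', finrank_span_eq_card hindI, Fintype.card_fin,
        Fintype.card_coe]
      exact hr
  -- coordinates of the points of the face
  have hcoord : ∀ z ∈ Face C x, ∃ a : Fin K → ℝ, (∀ i ∈ I, 0 < a i) ∧ (∀ i, i ∉ I → a i = 0) ∧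
      z = ∑ i, a i • w i := by
    intro z hz
    have h1 := hfs z hz
    rw [← hspan, Submodule.mem_span_range_iff_exists_fun] at h1
    obtain ⟨c, hc⟩ := h1
    obtain ⟨a, ha⟩ : ∃ a : Fin K → ℝ, a = fun i => if hi : i ∈ I then c ⟨i, hi⟩ else 0 := ⟨_, rfl⟩
    have ha0 : ∀ i, i ∉ I → a i = 0 := by
      intro i hi
      rw [ha]
      simp [hi]
    have ha1 : ∀ i : {i // i ∈ I}, a i = c i := by
      intro i
      rw [ha]
      simp
    have hzI : z = ∑ i ∈ I, a i • w i := by
      rw [← hc, ← Finset.sum_coe_sort I]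
      exact Finset.sum_congr rfl fun i _ => by rw [ha1]
    have hzU : z = ∑ i, a i • w i := by
      rw [hzI]
      refine Finset.sum_subset (Finset.subset_univ I) fun i _ hi => ?_
      rw [ha0 i hi, zero_smul]
    refine ⟨a, ?_, ha0, hzU⟩
    by_contra hcon
    push Not at hcon
    obtain ⟨i₁, hi₁, hi₁'⟩ := hcon
    obtain ⟨i₀, hi₀, hmin⟩ := Finset.exists_min_image I a hIne
    have ha₀ : a i₀ ≤ 0 := (hmin i₁ hi₁).trans hi₁'
    obtain ⟨ε, hε, _, hε2⟩ := hz
    obtain ⟨θ, hθ⟩ : ∃ θ : ℝ, θ = 1 / (1 - a i₀) := ⟨_, rfl⟩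
    have h1a : 0 < 1 - a i₀ := by linarith
    have hθ0 : 0 < θ := by rw [hθ]; positivity
    have hθ1 : θ ≤ 1 := by
      rw [hθ, div_le_one h1a]
      linarith
    have hθa : θ * (1 - a i₀) = 1 := by
      rw [hθ]
      field_simp
    obtain ⟨b, hb⟩ : ∃ b : Fin K → ℝ, b = fun i => 1 - θ + θ * a i := ⟨_, rfl⟩
    have hb0 : b i₀ = 0 := by
      rw [hb]
      simp only
      linarith
    have hbn : ∀ i ∈ I, 0 ≤ b i := by
      intro i hi
      have h2 := hmin i hi
      rw [← hb0, hb]
      nlinarith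
    obtain ⟨A, hA⟩ : ∃ A : ℝ, A = 1 + ∑ i ∈ I, |b i| := ⟨_, rfl⟩
    have hA0 : 0 < A := by
      rw [hA]
      have : 0 ≤ ∑ i ∈ I, |b i| := Finset.sum_nonneg fun i _ => abs_nonneg _
      linarith
    have hAb : ∀ i ∈ I, b i ≤ A := by
      intro i hi
      have h2 := Finset.single_le_sum (f := fun i => |b i|) (fun i _ => abs_nonneg _) hi
      have h3 := le_abs_self (b i)
      rw [hA]
      linarith
    have hε' : 0 < (1 - θ) + θ * ε := by
      have := mul_pos hθ0 hε
      linarith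
    have hv : (1 - θ) • x + θ • z = ∑ i ∈ I.erase i₀, b i • w i := by
      have h2 : (1 - θ) • x + θ • z = ∑ i ∈ I, b i • w i := by
        rw [hx, hzI, Finset.smul_sum, Finset.smul_sum, ← Finset.sum_add_distrib]
        refine Finset.sum_congr rfl fun i _ => ?_
        rw [hb]
        module
      rw [h2, ← Finset.add_sum_erase I _ hi₀, hb0, zero_smul, zero_add]
    have h4 : (∑ i ∈ I.erase i₀, A • w i) - ((1 - θ) • x + θ • z) ∈ closure C := by
      rw [hv, ← Finset.sum_sub_distrib]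
      refine P.cl_sum fun i hi => ?_
      rw [← sub_smul]
      exact P.cl_smul (hwcl i) (by linarith [hAb i (Finset.mem_of_mem_erase hi)])
    have h5 : ((1 - θ) • x + θ • z) - ((1 - θ) + θ * ε) • x ∈ closure C := by
      have h6 : ((1 - θ) • x + θ • z) - ((1 - θ) + θ * ε) • x = θ • (z - ε • x) := by
        module
      rw [h6]
      exact P.cl_smul hε2 hθ0.le
    obtain ⟨ε', hε'd⟩ : ∃ ε' : ℝ, ε' = (1 - θ) + θ * ε := ⟨_, rfl⟩
    rw [← hε'd] at hε' h5
    have h7 : (∑ i ∈ I.erase i₀, A • w i + ∑ i ∈ Iᶜ, ε' • w i) - ε' • ∑ i, w i ∈ closure C := by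
      have h8 : (∑ i ∈ I.erase i₀, A • w i + ∑ i ∈ Iᶜ, ε' • w i) - ε' • ∑ i, w i =
          ((∑ i ∈ I.erase i₀, A • w i) - ((1 - θ) • x + θ • z)) +
            (((1 - θ) • x + θ • z) - ε' • x) := by
        rw [← Finset.sum_add_sum_compl I w, ← hx, smul_add, Finset.smul_sum (s := Iᶜ)]
        abel
      rw [h8]
      exact P.cl_add h4 h5
    have h9 : ∑ i ∈ I.erase i₀, A • w i + ∑ i ∈ Iᶜ, ε' • w i ∈ C :=
      P.mem_of_le (P.smul _ hw.1.sum_mem ε' hε') h7
    have h10 : ∑ i ∈ I.erase i₀, A • w i + ∑ i ∈ Iᶜ, ε' • w i =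
        ∑ i, (if i ∈ I then (if i = i₀ then 0 else A) else ε') • w i := by
      rw [← Finset.sum_add_sum_compl I (fun i => (if i ∈ I then (if i = i₀ then 0 else A) else ε') • w i)]
      congr 1
      · rw [← Finset.add_sum_erase I _ hi₀]
        rw [if_pos hi₀, if_pos rfl, zero_smul, zero_add]
        refine Finset.sum_congr rfl fun i hi => ?_
        rw [if_pos (Finset.mem_of_mem_erase hi), if_neg (Finset.ne_of_mem_erase hi)]
      · refine Finset.sum_congr rfl fun i hi => ?_
        rw [if_neg (Finset.mem_compl.1 hi)]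
    rw [h10] at h9
    refine hw.1.bd _ (fun i => ?_) ⟨i₀, by simp [hi₀]⟩ h9
    split_ifs
    · exact le_rfl
    · exact hA0.le
    · exact hε'.le
  -- the rays `x + μ y`
  have hray : ∀ μ : ℝ, 0 < μ → x + μ • y ∈ Face C x := by
    intro μ hμ
    have h1 : 0 < 1 + μ * β := by positivity
    refine ⟨1 / (1 + μ * β), by positivity, ?_, ?_⟩
    · have h2 : x - (1 / (1 + μ * β)) • (x + μ • y) = (μ / (1 + μ * β)) • (β • x - y) := by
        have h3 : x = ((1 + μ * β) / (1 + μ * β)) • x := by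
          rw [div_self h1.ne', one_smul]
        nth_rewrite 1 [h3]
        module
      rw [h2]
      exact P.cl_smul hβ (by positivity)
    · have h2 : x + μ • y - (1 / (1 + μ * β)) • x = (μ * β / (1 + μ * β)) • x + μ • y := by
        have h3 : x = ((1 + μ * β) / (1 + μ * β)) • x := by
          rw [div_self h1.ne', one_smul]
        nth_rewrite 1 [h3]
        module
      rw [h2]
      exact P.cl_add (P.cl_smul hxcl (by positivity)) (P.cl_smul hy hμ.le)
  obtain ⟨a, ha1, ha2, ha3⟩ := hcoord _ (hray 1 one_pos)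
  rw [one_smul] at ha3
  have hxU : x = ∑ i, (if i ∈ I then (1 : ℝ) else 0) • w i := by
    rw [hx]
    simp only [ite_smul, one_smul, zero_smul]
    rw [Finset.sum_ite_mem, Finset.univ_inter]
  have hyU : y = ∑ i, (a i - if i ∈ I then (1 : ℝ) else 0) • w i := by
    have h1 : y = (x + y) - x := by abel
    rw [h1, ha3]
    nth_rewrite 1 [hxU]
    rw [← Finset.sum_sub_distrib]
    exact Finset.sum_congr rfl fun i _ => (sub_smul _ _ _).symm
  refine ⟨fun i => a i - if i ∈ I then (1 : ℝ) else 0, fun i => ?_, fun i hi => ?_, hyU⟩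
  · by_cases hi : i ∈ I
    · by_contra hcon
      push Not at hcon
      obtain ⟨c, hc⟩ : ∃ c : ℝ, c = a i - if i ∈ I then (1 : ℝ) else 0 := ⟨_, rfl⟩
      rw [← hc] at hcon
      obtain ⟨a', ha'1, _, ha'3⟩ := hcoord _ (hray (-1 / c) (div_pos_of_neg_of_neg (by norm_num) hcon))
      have h1 : x + (-1 / c) • y = ∑ i, ((if i ∈ I then (1 : ℝ) else 0) +
          (-1 / c) * (a i - if i ∈ I then (1 : ℝ) else 0)) • w i := by
        nth_rewrite 1 [hxU]
        rw [hyU, Finset.smul_sum, ← Finset.sum_add_distrib]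
        refine Finset.sum_congr rfl fun i _ => ?_
        module
      rw [ha'3] at h1
      have h2 : ∑ i, (a' i - ((if i ∈ I then (1 : ℝ) else 0) +
          (-1 / c) * (a i - if i ∈ I then (1 : ℝ) else 0))) • w i = 0 := by
        simp_rw [sub_smul]
        rw [Finset.sum_sub_distrib, sub_eq_zero]
        exact h1
      have h3 := Fintype.linearIndependent_iff.1 hind _ h2 i
      rw [← hc, if_pos hi] at h3
      have h4 : (-1 / c) * c = -1 := by
        rw [div_mul_cancel₀ _ hcon.ne]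
      have h5 := ha'1 i hi
      linarith
    · simp [hi, ha2 i hi]
  · simp [hi, ha2 i hi]

end Pool.Agent.PFS.H69
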